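import Pool.Agent.Helper30.PD.Tail
import Pool.Agent.Helper34.CM.Eta

/-!
# The law of the orbit minimum

`T n = n / d` if `d ∣ n`, `T n = (m n - r_j) / d` if `n ≡ j (mod d)`, `1 ≤ j ≤ d - 1`, as in the problem file. Let
`2 ≤ d < m ≤ d ^ (d / (d - 1))` be coprime; `η = η(d, m) < 1` is the entropy exponent. There is `κ > 1 - η`, which depends only on `d`
and `m`, such that for every admissible `R`
* all positive integers except a set of at most `C x z ^ (-κ)` of the `n ≤ x` have an orbit which goes `≤ z`, for all `x, z ≥ 1`;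
* the integers whose orbit has `e` as its least positive element have a natural density `p (e)`; the sum of the `p (e)` is `1`, and the
  sum over `e > z` is at most `C z ^ (-κ)`;
* `p (e) ≥ c / e` if `e ≥ 1` is not dead and has no positive iterate below itself, and `p (e) = 0` otherwise;
* for large `e`, `p (e) > 0` if and only if `e` is an element of the exceptional set `E(d, m, R)` which is not dead; `E(d, m, R)` is finite
  if and only if `p (e) > 0` for finitely many `e` only, if and only if the sum of the `p (e)`, `e > z`, is `o (1 / z)`.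
For `3x + 1` the dead integers are the multiples of `3`, `1 - η > 1 / 20`, and all positive integers reach `1` if and only if `p (1) = 1`.

Proof. The set `MinAt e` is invariant under `T` beyond `e`, so it has a natural density (`Helper91/PL`, by the fine-scale mixing of the
Syracuse random variables, Tao; `Helper52.Tao` for all Möller maps). The tail is `Helper28/BE`: Tao's iteration, which starts from an entropy count
of the integers whose orbit does not go down, improved by a Fourier bound. The lower bound is the one for the predecessors `n` of `d ^ k e`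
(`Helper8/POS`), `d ^ k` a large constant which is `1` modulo a power of `m`, with paths which stay `≥ e`.
-/

set_option autoImplicit false

namespace Pool.Agent.Results.MP_fd8838_nt.OrbitMinimum

open Pool.Agent.Helper68.Moeller Pool.Agent.Helper91 Pool.Agent.Helper8 Pool.Agent.Helper28 Filter
  Topology

/-- The number of the positive elements `≤ x`. -/
noncomputable def count (A : Set ℤ) (x : ℝ) : ℝ := ({n : ℤ | n ∈ A ∧ 0 < n ∧ (n : ℝ) ≤ x}.ncard : ℝ)

/-- The natural density (in the positive integers). -/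
def HasDensity (A : Set ℤ) (δ : ℝ) : Prop := Tendsto (fun x : ℝ => count A x / x) atTop (𝓝 δ)

/-- `a` is dead: the number of the points not divisible by `d` on the path from `n` to `a` is bounded,
for the integers `n` whose orbit contains `a`. -/
def Dead (d m : ℕ) (r : ℤ → ℤ) (a : ℤ) : Prop :=
  ∃ k : ℕ, ∀ (n : ℤ) (t : ℕ), (T d m r)^[t] n = a →
    ((Finset.range t).filter (fun i => ¬ (d : ℤ) ∣ (T d m r)^[i] n)).card < k

/-- The integers whose orbit has `e` as its least positive element. -/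
def MinAt (d m : ℕ) (r : ℤ → ℤ) (e : ℤ) : Set ℤ := {n | IsLeast {y : ℤ | 0 < y ∧ ∃ t : ℕ, (T d m r)^[t] n = y} e}

/-- The entropy exponent: `η log d = p log (d - 1) + h (p)`, `p = log d / log m`, `h (p) = - p log p - (1 - p) log (1 - p)`. -/
noncomputable def eta (d m : ℕ) : ℝ :=
  (Real.log d / Real.log m * Real.log ((d : ℝ) - 1) + Real.binEntropy (Real.log d / Real.log m)) / Real.log d

/-- The map `(3x + 1) / 2`, `x / 2`. -/
def T3 : ℤ → ℤ := T 2 3 (fun _ => -1)

theorem eta_eq (d m : ℕ) : eta d m = Pool.Agent.Helper68.Moeller.eta d m := by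
  unfold eta Pool.Agent.Helper68.Moeller.eta Real.qaryEntropy
  push_cast
  ring

/-- **The law of the orbit minimum.** -/
theorem result (d m : ℕ) (hd : 2 ≤ d) (hdm : d < m) (hco : Nat.Coprime m d)
    (hw : (m : ℝ) ≤ (d : ℝ) ^ ((d : ℝ) / ((d : ℝ) - 1))) :
    ∃ κ : ℝ, 0 < 1 - eta d m ∧ 1 - eta d m < κ ∧ ∀ r : ℤ → ℤ, Admissible d m r → ∃ (p : ℤ → ℝ) (c C : ℝ), 0 < c ∧
      (∀ x z : ℝ, 1 ≤ x → 1 ≤ z → count {n | ∀ t : ℕ, z < ((T d m r)^[t] n : ℝ)} x ≤ C * x * z ^ (-κ)) ∧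
      (∀ e : ℤ, HasDensity (MinAt d m r e) (p e)) ∧
      HasSum p 1 ∧
      (∀ z : ℝ, 1 ≤ z → ∑' e : ℤ, Set.indicator {e : ℤ | z < (e : ℝ)} p e ≤ C * z ^ (-κ)) ∧
      (∀ e : ℤ, 1 ≤ e → ¬ Dead d m r e → (∀ t : ℕ, 0 < (T d m r)^[t] e → e ≤ (T d m r)^[t] e) →
        c / e ≤ p e ∧ ∀ x : ℝ, (e : ℝ) ≤ x → c * x / e ≤ count (MinAt d m r e) x) ∧
      (∀ e : ℤ, (e ≤ 0 ∨ Dead d m r e ∨ ∃ t : ℕ, 0 < (T d m r)^[t] e ∧ (T d m r)^[t] e < e) → p e = 0) ∧
      (∃ B : ℤ, ∀ e : ℤ, B < e → (0 < p e ↔ e ∈ E d m r ∧ ¬ Dead d m r e)) ∧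
      ((E d m r).Finite ↔ {e : ℤ | 0 < p e}.Finite) ∧
      ((E d m r).Finite ↔ Tendsto (fun z : ℝ => z * ∑' e : ℤ, Set.indicator {e : ℤ | z < (e : ℝ)} p e) atTop (𝓝 0)) := by
  have heta1 : Pool.Agent.Helper68.Moeller.eta d m < 1 := eta_lt_one hd hdm hco hw
  obtain ⟨κ, hκ1, hst⟩ := Pool.Agent.Helper30.PD.stay_tail_beyond hd hdm hco hw
  have hκ : 0 < κ := by linarith
  refine ⟨κ, by rw [eta_eq]; linarith, by rw [eta_eq]; exact hκ1, fun r hr => ?_⟩
  have h : POSB.Std d m r := ⟨hd, hdm, hco, hw, hr⟩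
  obtain ⟨c, hc, hlow⟩ := Pool.Agent.Helper30.PD.p_lower h
  have hs := hst r h κ le_rfl
  have hE3 := Pool.Agent.Helper30.PD.finite_iff_tail h hκ hs
  obtain ⟨hsum, C₂, hC₂, htail⟩ := Pool.Agent.Helper30.PD.law h hκ hs
  obtain ⟨C₁, hC₁, hstay⟩ := hs
  obtain ⟨hE1, hE2⟩ := Pool.Agent.Helper30.PD.law_E h
  refine ⟨fun e => PL.dens (Pool.Agent.Helper30.PD.MinAt d m r e), c, max C₁ C₂, hc, fun x z hx hz => ?_,
    fun e => POSB.tendsto_dens h (Pool.Agent.Helper30.PD.tinv_MinAt e), hsum, fun z hz => ?_, fun e he hal hmin => ?_,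
    fun e he => ?_, hE1, hE2, hE3⟩
  · refine le_trans (hstay x z hx hz) ?_
    have h1 : 0 ≤ z ^ (-κ) := Real.rpow_nonneg (by linarith) _
    have h2 : C₁ * x ≤ max C₁ C₂ * x := mul_le_mul_of_nonneg_right (le_max_left _ _) (by linarith)
    exact mul_le_mul_of_nonneg_right h2 h1
  · exact (htail z hz).trans (mul_le_mul_of_nonneg_right (le_max_right _ _) (Real.rpow_nonneg (by linarith) _))
  · exact hlow e ⟨by omega, hmin⟩ hal
  · refine Pool.Agent.Helper30.PD.p_zero h ?_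
    rcases he with he | he | ⟨t, ht0, ht⟩
    · exact Or.inr fun hl => by have := hl.1; omega
    · exact Or.inl he
    · exact Or.inr fun hl => by have := hl.2 t ht0; omega

/-- For `3x + 1`: the dead integers are the multiples of `3`, the exponent is at least `1 / 20`, and all positive integers reach `1` if
and only if the mass of `1` is `1`. -/
theorem three : ∃ (p : ℤ → ℝ) (c C : ℝ), 0 < c ∧
    (∀ x z : ℝ, 1 ≤ x → 1 ≤ z → count {n | ∀ t : ℕ, z < (T3^[t] n : ℝ)} x ≤ C * x * z ^ (-(1 / 20 : ℝ))) ∧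
    (∀ e : ℤ, HasDensity {n | IsLeast {y : ℤ | 0 < y ∧ ∃ t : ℕ, T3^[t] n = y} e} (p e)) ∧
    HasSum p 1 ∧
    (∀ e : ℤ, 1 ≤ e → ¬ (3 : ℤ) ∣ e → (∀ t : ℕ, 0 < T3^[t] e → e ≤ T3^[t] e) → c / e ≤ p e) ∧
    (∀ e : ℤ, (e ≤ 0 ∨ (3 : ℤ) ∣ e ∨ ∃ t : ℕ, 0 < T3^[t] e ∧ T3^[t] e < e) → p e = 0) ∧
    ((E 2 3 (fun _ => -1)).Finite ↔ {e : ℤ | 0 < p e}.Finite) ∧
    ((E 2 3 (fun _ => -1)).Finite ↔ Tendsto (fun z : ℝ => z * ∑' e : ℤ, Set.indicator {e : ℤ | z < (e : ℝ)} p e) atTop (𝓝 0)) ∧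
    ((∀ n : ℤ, 1 ≤ n → ∃ t : ℕ, T3^[t] n = 1) ↔ p 1 = 1) := by
  have h := POSB.std_three
  obtain ⟨κ, -, hκ, hall⟩ := result 2 3 h.hd h.hdm h.hco h.hw
  obtain ⟨p, c, C, hc, h0, h1, h2, -, h3, h4, -, h5, h5'⟩ := hall (fun _ => -1) h.hr
  have hκ20 : 1 / 20 ≤ κ := by
    rw [eta_eq] at hκ
    have := Pool.Agent.Helper34.CM.eta_two_three
    linarith
  have hdead : ∀ e : ℤ, Dead 2 3 (fun _ => -1) e ↔ (3 : ℤ) ∣ e := fun e => PL.dead_three e
  refine ⟨p, c, max C 0, hc, fun x z hx hz => ?_, h1, h2, fun e he he3 hmin => (h3 e he (fun hd => he3 ((hdead e).1 hd)) hmin).1,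
    fun e he => h4 e ?_, h5, h5', ?_⟩
  · have h12 : z ^ (-κ) ≤ z ^ (-(1 / 20 : ℝ)) := Real.rpow_le_rpow_of_exponent_le hz (by linarith)
    have h13 : 0 ≤ z ^ (-κ) := Real.rpow_nonneg (by linarith) _
    have h14 : C * x ≤ max C 0 * x := mul_le_mul_of_nonneg_right (le_max_left _ _) (by linarith)
    have h15 : 0 ≤ max C 0 * x := mul_nonneg (le_max_right _ _) (by linarith)
    exact (h0 x z hx hz).trans ((mul_le_mul_of_nonneg_right h14 h13).trans (mul_le_mul_of_nonneg_left h12 h15))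
  · rcases he with he | he | he
    · exact Or.inl he
    · exact Or.inr (Or.inl ((hdead e).2 he))
    · exact Or.inr (Or.inr he)
  · obtain ⟨q, -, hq1, hq2⟩ := POSB.three
    have hset : MinAt 2 3 (fun _ => -1) 1 = {n : ℤ | ∃ t : ℕ, (T 2 3 (fun _ => -1))^[t] n = 1} := by
      ext n
      constructor
      · intro hn
        exact hn.1.2
      · intro hn
        exact ⟨⟨one_pos, hn⟩, fun y hy => by have := hy.1; omega⟩
    have h6 := h1 1
    rw [hset] at h6
    have h7 : p 1 = q := tendsto_nhds_unique h6 hq1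
    rw [h7]
    constructor
    · intro hn
      exact hq2.2 fun n hn0 => hn n (by omega)
    · intro hq n hn
      exact hq2.1 hq n (by omega)

end Pool.Agent.Results.MP_fd8838_nt.OrbitMinimum
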