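import Pool.Agent.Helper30.PD.Size
import Pool.Agent.Helper34.CM.CardB
import Pool.Agent.Helper5.CM.Cyc
import Pool.Agent.Helper34.CM.Eta

/-!
# The densities of the sets of predecessors

`T n = n / d` if `d ∣ n`, `T n = (m n - r_j) / d` if `n ≡ j (mod d)`, `1 ≤ j ≤ d - 1`, as in the problem file; `Pred a` is the set
of the integers whose `T`-orbit contains `a`. Let `2 ≤ d < m ≤ d ^ (d / (d - 1))` be coprime and `R` admissible. For a positive
integer `a` that is not dead let `M (a)` be the least positive integer that is not dead and has `a` on its orbit. Then `Pred a` has a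
natural density `D (a)`, which is `0` if `a` is dead; if `a` is not dead, then
* at least `c x / M (a)` of the positive integers up to `x` belong to `Pred a`, for every `x ≥ M (a)` (`M (a) ≤ a`), and
* `c / M (a) ≤ D (a) ≤ C M (a) ^ (-κ)`, with a `κ > 1 - η` which depends only on `d` and `m`, `η = η(d, m) < 1` the entropy exponent.
Some positive integer has an orbit which is not bounded above if and only if `D (a)` does not tend to `0` as `a → ∞`, and the
exceptional set `E(d, m, R)` of the problem is finite if and only if `D (a) → 0` and there are only finitely many positive periodic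
points. For `3x + 1` the dead integers are the multiples of `3`, and `1 - η > 1 / 20`.

Structure of the proof of the lower bound (`Helper8/POS`). Words `w` code the backward orbits `pt w x` of length `|w|` from `x`,
with the weight `m ^ sg w / d ^ |w|`, about `x / pt w x`; `gg j x` is the total weight of the words of length `j` which are valid
at `x`.
* `MixA`-`Mix`: by the fine-scale mixing of the Syracuse random variables (Tao; `Helper52.Tao`, for all Möller maps) the
  functions `gg j` are near each other in the mean, with an error smaller than every power of `j`.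
* `BdA`, `Bd`: for EVERY integer `x` the typical words of length `t` lead to points `pt w x` which are distributed modulo `m ^ i`,
  `i ≤ t / Q`, with a density at most `C t` with respect to the uniform distribution: for a fixed number `s` of non-zero digits
  the offsets of the words are distinct integers of size `O (d ^ t)` in one residue class modulo `m ^ (s + i)`.
* `Dev`, `TypA`-`Typ`, `Step`, `AllT`: so the weight of the typical words which are valid at `x` is almost non-decreasing in the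
  length, at every `x`, with a summable error.
* `Start`: it is at least `δ` at one large level for a residue class in every neighbourhood of every integer which is
  not dead (`Helper91.PL`), hence at least `δ / 2` at all later levels, for all integers `x` of this class.
* `Cross`, `Window`, `EndMass`, `Count`: from the weights to the number of predecessors up to `X`.
* `ReachA`, `Reach`: every `a ≥ 1` which is not dead has a predecessor `x ≤ K a` in such a class.

Structure of the proof of the upper bound (`Helper51/PD`, `Helper5/PD`, `Helper30/PD`). Let `G (z)` be the set of the integers whose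
path to `a` stays `> z`.
* `Path`, `Descent`, `Count`: `G (z)` has at most `C (log x) ^ 4 x z ^ (η' - 1)` elements up to `x`, for every `a`: an `n ≤ x` that
  reaches `a` in `t = O (log x)` steps, `s` of them with a non-zero digit, along points `> z`, satisfies `m ^ s n = d ^ t a (1 + O (t / z))`,
  so it lies in an interval of length `O (x (log x) / z)`; the others stay `> z` for a long time. Here `η' < η`: `Helper28/BE`, a
  Fourier bound beyond the entropy exponent for the integers whose orbit does not go down (`Helper34/CM/Beyond`, `CardB`).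
* `FdRec`: Tao's iteration, for every set which is invariant beyond a point, gives the same bound without the logarithms for the
  density of the `n` whose path to `a` stays `> z` and has a point `≤ exp (z ^ θ)`.
* `Tail`: induction over the scales `z`, `exp (z ^ θ)`, …, which ends at `a`: the upper density of `G (z)` is `O (z ^ (-κ))`.
* `Size`: for `z < M (a)` the elements of `Pred a` outside `G (z)` have a dead integer on their path to `a`.
-/

set_option autoImplicit false

namespace Pool.Agent.Results.MP_fd8838_nt.PositiveDensity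

open Pool.Agent.Helper68.Moeller Pool.Agent.Helper91 Pool.Agent.Helper8 Pool.Agent.Helper28 Filter
  Topology

/-- The number of the positive elements `≤ x`. -/
noncomputable def count (A : Set ℤ) (x : ℝ) : ℝ := ({n : ℤ | n ∈ A ∧ 0 < n ∧ (n : ℝ) ≤ x}.ncard : ℝ)

/-- The natural density (in the positive integers). -/
def HasDensity (A : Set ℤ) (δ : ℝ) : Prop := Tendsto (fun x : ℝ => count A x / x) atTop (𝓝 δ)

/-- The integers whose orbit under `T` contains `a`. -/
def Pred (d m : ℕ) (r : ℤ → ℤ) (a : ℤ) : Set ℤ := {n | ∃ t : ℕ, (T d m r)^[t] n = a}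

/-- `a` is dead: the number of the points not divisible by `d` on the path from `n` to `a` is bounded,
for the integers `n` whose orbit contains `a`. -/
def Dead (d m : ℕ) (r : ℤ → ℤ) (a : ℤ) : Prop :=
  ∃ k : ℕ, ∀ (n : ℤ) (t : ℕ), (T d m r)^[t] n = a →
    ((Finset.range t).filter (fun i => ¬ (d : ℤ) ∣ (T d m r)^[i] n)).card < k

/-- The positive integers that are not dead and have `a` on their orbit. -/
def Src (d m : ℕ) (r : ℤ → ℤ) (a : ℤ) : Set ℤ := {n | 0 < n ∧ ¬ Dead d m r n ∧ n ∈ Pred d m r a}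

/-- The entropy exponent: `η log d = p log (d - 1) + h (p)`, `p = log d / log m`, `h (p) = - p log p - (1 - p) log (1 - p)`. -/
noncomputable def eta (d m : ℕ) : ℝ :=
  (Real.log d / Real.log m * Real.log ((d : ℝ) - 1) + Real.binEntropy (Real.log d / Real.log m)) / Real.log d

/-- The map `(3x + 1) / 2`, `x / 2`. -/
def T3 : ℤ → ℤ := T 2 3 (fun _ => -1)

theorem eta_eq (d m : ℕ) : eta d m = Pool.Agent.Helper68.Moeller.eta d m := by
  unfold eta Pool.Agent.Helper68.Moeller.eta Real.qaryEntropy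
  push_cast
  ring

/-- **The densities of the sets of predecessors.** -/
theorem result (d m : ℕ) (hd : 2 ≤ d) (hdm : d < m) (hco : Nat.Coprime m d)
    (hw : (m : ℝ) ≤ (d : ℝ) ^ ((d : ℝ) / ((d : ℝ) - 1))) :
    ∃ κ : ℝ, 0 < 1 - eta d m ∧ 1 - eta d m < κ ∧ ∀ r : ℤ → ℤ, Admissible d m r → ∃ δ : ℤ → ℝ,
      (∀ a : ℤ, HasDensity (Pred d m r a) (δ a)) ∧
      (∀ a : ℤ, Dead d m r a → δ a = 0) ∧
      (∀ a : ℤ, 1 ≤ a → ¬ Dead d m r a → ∃ M : ℤ, IsLeast (Src d m r a) M) ∧
      (∃ c : ℝ, 0 < c ∧ ∀ a M : ℤ, 1 ≤ a → IsLeast (Src d m r a) M →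
        c / M ≤ δ a ∧ ∀ x : ℝ, (M : ℝ) ≤ x → c * x / M ≤ count (Pred d m r a) x) ∧
      (∃ C : ℝ, ∀ a M : ℤ, 1 ≤ a → IsLeast (Src d m r a) M → δ a ≤ C * (M : ℝ) ^ (-κ)) ∧
      ((∃ n : ℤ, 1 ≤ n ∧ ∀ B : ℤ, ∃ t : ℕ, B < (T d m r)^[t] n) ↔ ¬ Tendsto δ atTop (𝓝 0)) ∧
      ((E d m r).Finite ↔ Tendsto δ atTop (𝓝 0) ∧ {a : ℤ | 1 ≤ a ∧ ∃ t : ℕ, 1 ≤ t ∧ (T d m r)^[t] a = a}.Finite) := by
  have heta1 : Pool.Agent.Helper68.Moeller.eta d m < 1 := eta_lt_one hd hdm hco hw
  obtain ⟨κ₀, hκ₀, hpt⟩ := Pool.Agent.Helper34.CM.path_tail_beyond hd hdm hco hw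
  obtain ⟨κ, hκ1, hκ2⟩ := exists_between hκ₀
  have hκ : 0 < κ := by linarith
  refine ⟨κ, by rw [eta_eq]; linarith, by rw [eta_eq]; exact hκ1, fun r hr => ?_⟩
  have h : POSB.Std d m r := ⟨hd, hdm, hco, hw, hr⟩
  obtain ⟨c, hc, hlow⟩ := Pool.Agent.Helper30.PD.size_lower h
  have hpt' := hpt r h κ hκ hκ2
  have hb := Pool.Agent.Helper30.PD.bounded_iff h hκ hpt'
  have hb' : (∃ n : ℤ, 1 ≤ n ∧ ∀ B : ℤ, ∃ t : ℕ, B < (T d m r)^[t] n) ↔
      ¬ Tendsto (fun a : ℤ => PL.dens (PL.Pr d m r a)) atTop (𝓝 0) := by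
    rw [← hb]
    push Not
    rfl
  refine ⟨fun a => PL.dens (PL.Pr d m r a), fun a => POSB.tendsto_dens h (PL.tinv_Pr d m r a),
    fun a ha => PL.dead_dens hd hdm hco hr ha, fun a ha hal => Pool.Agent.Helper30.PD.exists_least ha hal,
    ⟨c, hc, fun a M ha hM => hlow a M ha hM⟩, ?_, hb', ?_⟩
  · obtain ⟨C, -, hC⟩ := Pool.Agent.Helper30.PD.size_upper h hκ hpt'
    exact ⟨C, hC⟩
  · rw [Pool.Agent.Helper5.CM.E_finite_iff h, hb', not_not]

/-- For `3x + 1`: the size of the set of the predecessors of `a` is governed by the least predecessor that is not divisible by `3`. -/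
theorem three : ∃ δ : ℤ → ℝ, ∃ c C : ℝ, 0 < c ∧ (∀ a : ℤ, HasDensity {n | ∃ t : ℕ, T3^[t] n = a} (δ a)) ∧
    (∀ a : ℤ, 1 ≤ a → ¬ (3 : ℤ) ∣ a → ∃ M : ℤ, IsLeast {n : ℤ | 0 < n ∧ ¬ (3 : ℤ) ∣ n ∧ ∃ t : ℕ, T3^[t] n = a} M ∧
      c / M ≤ δ a ∧ δ a ≤ C * (M : ℝ) ^ (-(1 / 20 : ℝ)) ∧
      ∀ x : ℝ, (M : ℝ) ≤ x → c * x / M ≤ count {n | ∃ t : ℕ, T3^[t] n = a} x) ∧
    ((∃ n : ℤ, 1 ≤ n ∧ ∀ B : ℤ, ∃ t : ℕ, B < T3^[t] n) ↔ ¬ Tendsto δ atTop (𝓝 0)) := by
  have h := POSB.std_three
  obtain ⟨κ, -, hκ, hall⟩ := result 2 3 h.hd h.hdm h.hco h.hw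
  obtain ⟨δ, h1, h2, h3, ⟨c, hc, h4⟩, ⟨C, hC⟩, h6, -⟩ := hall (fun _ => -1) h.hr
  have hκ20 : 1 / 20 ≤ κ := by
    rw [eta_eq] at hκ
    have := Pool.Agent.Helper34.CM.eta_two_three
    linarith
  have hS : ∀ a : ℤ, Src 2 3 (fun _ => -1) a = {n : ℤ | 0 < n ∧ ¬ (3 : ℤ) ∣ n ∧ ∃ t : ℕ, T3^[t] n = a} := by
    intro a
    ext n
    have hdead : Dead 2 3 (fun _ => -1) n ↔ (3 : ℤ) ∣ n := PL.dead_three n
    exact and_congr_right fun _ => and_congr_left fun _ => not_congr hdead
  refine ⟨δ, c, max C 0, hc, h1, fun a ha ha3 => ?_, h6⟩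
  obtain ⟨M, hM⟩ := h3 a ha fun hdead => ha3 ((PL.dead_three a).1 hdead)
  have h7 := h4 a M ha hM
  have hM1 : (1 : ℝ) ≤ M := by
    have h8 : 0 < M := hM.1.1
    exact_mod_cast (by omega : 1 ≤ M)
  refine ⟨M, by rw [← hS]; exact hM, h7.1, ?_, h7.2⟩
  have h9 : (M : ℝ) ^ (-κ) ≤ (M : ℝ) ^ (-(1 / 20 : ℝ)) := Real.rpow_le_rpow_of_exponent_le hM1 (by linarith)
  have h10 : 0 ≤ (M : ℝ) ^ (-κ) := Real.rpow_nonneg (by linarith) _
  calc δ a ≤ C * (M : ℝ) ^ (-κ) := hC a M ha hM
    _ ≤ max C 0 * (M : ℝ) ^ (-κ) := mul_le_mul_of_nonneg_right (le_max_left _ _) h10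
    _ ≤ max C 0 * (M : ℝ) ^ (-(1 / 20 : ℝ)) := mul_le_mul_of_nonneg_left h9 (le_max_right _ _)

end Pool.Agent.Results.MP_fd8838_nt.PositiveDensity
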