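import Pool.Agent.Helper28.PR.F8
import Pool.Agent.Helper28.PR.MultAg
import Pool.Agent.Helper34.PT.Tail
import Pool.Agent.Helper30.PD.Stay
import Pool.Agent.Helper30.PP.Ui
import Pool.Agent.Helper5.PP.S2
import Pool.Agent.Helper51.PR.S5

/-!
# The orbits of the primes

`T n = n / d` if `d ∣ n`, `T n = (m n - r_j) / d` if `n ≡ j (mod d)`, `1 ≤ j ≤ d - 1`, as in the problem file, with coprime
`2 ≤ d < m ≤ d ^ (d / (d - 1))` and admissible residues.

1. Transference: for every set `B` of integers, if `T^k n ∈ B`, `k = ⌈K log log y⌉`, for at most `c η ^ A H` of the integers `n` of `(y, y + H]`,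
`y ^ θ ≤ H ≤ y`, then `T^k p ∈ B` for at most `η H / log y` of the primes `p` of `(y, y + H]`, for all `0 < η ≤ 1`, `y ≥ Y(η)`. Hence at most
`C z ^ (-κ) x / log x` of the primes `p ≤ x` have an orbit that stays above `z`, for each `z ≥ 1` and `x ≥ X(z)`; and for every `f` which tends to
infinity almost all primes `p` have an iterate `T^t p ≤ f p`, `t ≤ log p / γ + f p √(log p)`.
2. Conversely, for `3x + 1` and `3x - 1`, a set which is invariant (`n ∈ G ↔ T n ∈ G` for `n > 0`) and has the density `D > 0` contains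
`≥ c D x / log x` of the primes of `[x, 2x)`, with an absolute `c > 0`. Hence it contains almost all primes if and only if `D = 1`, almost no primes if and
only if `D = 0`; `E(2, 3, R)` is finite if and only if for some `B` the orbits of almost all primes go `≤ B`.

So almost all primes behave as almost all integers, and for `3x + 1` and `3x - 1` conversely. Corollaries for `3x + 1`, not part of `result`: if not all positive
integers reach `1` then at least `c x / log x` of the primes of `[x, 2x)` do not, `x` large (`three_all`); for every `a > 0` which is not divisible by `3`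
at least `(c / a) x / log x` of the primes of `[x, 2x)` have `a` on their orbit, `x` large (`pred_all`).

Structure of the proof (`Helper28/PR`). For 1 (`s5g`) the primes `p` of the interval are sorted by the word `w` of their first `k` steps, i.e. by their residue
modulo `d ^ k`; `T^k p = b` if `m ^ sg w p = d ^ k b + Off w`. The number of the pairs of primes with the same end point `b` is bounded by an upper
bound sieve (`Pairs`), on average over the words (`SingAv`: the singular series; `MultA`, `MultB`: the number of the words with the same end point, which is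
controlled by the fine-scale mixing of Tao, `Helper52.Tao`, also modulo small primes `q`, `Helper8.LQ`): it is as small as for random integers, and a
second moment argument (`T1`-`T4`, `G1`-`G4`) gives the transference. The loss `η ^ A` is polynomial because the densities of the limit law on the
residue classes modulo `m ^ l` are uniformly integrable with a power (`Helper30/PP`: the offsets of the words have a power tail; `Helper5/PP`,
`Helper51/PR`, `Helper34/PT`: the steps with explicit constants). The rest of 1 follows from the estimates for all integers (`Helper30/PD`, `Helper8/ST`). For 2: by `Helper8/SI` a positive proportion `≥ c D` of the intervals `[n, n + n ^ θ]`, for `θ < 1` near `1`, consists almost entirely of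
integers of `G`; they contain `≥ c n ^ θ / log n` primes (`Helper34/HO`: an elementary proof of Hoheisel's theorem, by Selberg's formula in short
intervals), and by the transference most of these are in `G`.
-/

set_option autoImplicit false

namespace Pool.Agent.Results.MP_fd8838_nt.PrimeOrbits

open Pool.Agent.Helper68.Moeller Pool.Agent.Helper91 Pool.Agent.Helper8 Pool.Agent.Helper28 Pool.Agent.Helper28.PR
  Pool.Agent.Helper8.ND Filter Topology

/-- The natural density (in the positive integers). -/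
def HasDensity (A : Set ℤ) (D : ℝ) : Prop :=
  Tendsto (fun x : ℝ => ({n : ℤ | n ∈ A ∧ 0 < n ∧ (n : ℝ) ≤ x}.ncard : ℝ) / x) atTop (𝓝 D)

/-- `G` is invariant under `T`, in the positive integers. -/
def Inv (d m : ℕ) (r : ℤ → ℤ) (G : Set ℤ) : Prop := ∀ n : ℤ, 0 < n → (n ∈ G ↔ T d m r n ∈ G)

/-- The number of the primes `p ∈ [x, 2x)` with the property `P`. -/
noncomputable def prim (P : ℕ → Prop) (x : ℝ) : ℝ := ({p : ℕ | p.Prime ∧ x ≤ p ∧ (p : ℝ) < 2 * x ∧ P p}.ncard : ℝ)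

/-- Almost all primes have the property `P`. -/
def AlmostAllPrimes (P : ℕ → Prop) : Prop :=
  Tendsto (fun x : ℝ => ({p : ℕ | p.Prime ∧ (p : ℝ) ≤ x ∧ P p}.ncard : ℝ) / ({p : ℕ | p.Prime ∧ (p : ℝ) ≤ x}.ncard : ℝ))
    atTop (𝓝 1)

/-- `γ = log d - (1 - 1 / d) log m`. -/
noncomputable def drift (d m : ℕ) : ℝ := Real.log d - (1 - 1 / (d : ℝ)) * Real.log m

/-- The map `(3x + 1) / 2`, `x / 2`. -/
def T3 : ℤ → ℤ := T 2 3 (fun _ => -1)

/-- The transference with a polynomial loss. -/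
theorem s5p_all {d m : ℕ} {r : ℤ → ℤ} (h : POSB.Std d m r) : Pool.Agent.Helper34.PT.S5pStmt d m r :=
  Pool.Agent.Helper51.PR.s5p_of h.hd h.hdm h.gam h.hco h.hr s1g
    (Pool.Agent.Helper5.PP.s2p_std h (Pool.Agent.Helper30.PP.uiPoly h)) (s3g h) s4g

theorem aap_iff (P : ℕ → Prop) : AlmostAllPrimes P ↔ AAP P := by
  unfold AlmostAllPrimes AAP cp
  simp only [and_true]

/-- Corollary for `3x + 1`: the primes with `a` on their orbit. -/
theorem pred_all : ∃ c : ℝ, 0 < c ∧ ∀ a : ℤ, 1 ≤ a → ¬ (3 : ℤ) ∣ a → ∃ X : ℝ, ∀ x : ℝ, X ≤ x →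
    c / a * (x / Real.log x) ≤ prim (fun p => ∃ t : ℕ, T3^[t] (p : ℤ) = a) x := by
  have h := POSB.std_three
  obtain ⟨c1, hc1, h1⟩ := POS.density_one h.hd h.hdm h.hco h.hw h.hr
  obtain ⟨c, hc, h2⟩ := inv_all (r := fun _ => -1) h.hr (Or.inr rfl)
  refine ⟨c * (c1 / 2), by positivity, fun a ha h3 => ?_⟩
  have haR : (1 : ℝ) ≤ a := by exact_mod_cast ha
  obtain ⟨X, hX⟩ := h2 a (c1 / 2 / a) (by linarith) (by positivity)
  have htinv := PL.tinv_Pr 2 3 (fun _ => -1) a
  have hdens : c1 / a ≤ PL.dens (PL.Pr 2 3 (fun _ => -1) a) := by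
    refine POSB.le_dens_of (POSB.tendsto_dens h htinv) (X := a) fun x hx => ?_
    have h4 := h1 a x ha (fun hdead => h3 ((PL.dead_three a).1 hdead)) hx
    calc c1 / a * x = c1 * x / a := by ring
      _ ≤ _ := h4
  have hfd : ∀ᶠ x in atTop, c1 / 2 / a ≤ fd (PL.Pr 2 3 (fun _ => -1) a) x := by
    have e : c1 / 2 / a = c1 / a / 2 := by ring
    have h5 : 0 < c1 / a := by positivity
    have h6 := (PL.stab_tendsto h.hd h.hdm h.hco h.hr h.gam h.mix htinv).eventually
      (lt_mem_nhds (by rw [e]; linarith : c1 / 2 / a < PL.dens (PL.Pr 2 3 (fun _ => -1) a)))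
    exact h6.mono fun x hx => hx.le
  refine ⟨X, fun x hx => ?_⟩
  have h5 := hX _ htinv hfd x hx
  calc c * (c1 / 2) / a * (x / Real.log x) = c * (c1 / 2 / a) * (x / Real.log x) := by ring
    _ ≤ _ := h5

/-- The primes of an invariant set. -/
theorem dens_one {ρ : ℤ} (h1 : ρ = 1 ∨ ρ = -1) : ∃ c : ℝ, 0 < c ∧ ∀ D : ℝ, 0 < D → ∃ X : ℝ, ∀ G : Set ℤ,
    Inv 2 3 (fun _ => ρ) G → HasDensity G D → ∀ x : ℝ, X ≤ x → c * D * (x / Real.log x) ≤ prim (fun p => (p : ℤ) ∈ G) x := by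
  have hr : Admissible 2 3 (fun _ => ρ) := by
    intro j hj hj2
    have : j = 1 := by
      push_cast at hj2
      omega
    subst this
    rcases h1 with rfl | rfl <;> decide
  obtain ⟨c, hc, h⟩ := inv_all hr h1
  refine ⟨c / 2, by positivity, fun D hD => ?_⟩
  obtain ⟨X, hX⟩ := h 0 (D / 2) le_rfl (by positivity)
  refine ⟨X, fun G hG hGD x hx => ?_⟩
  have hstd := NL.std_of hr
  have h2 := hX G (POSB.Inv.tinv hG) ?_ x hx
  · calc c / 2 * D * (x / Real.log x) = c * (D / 2) * (x / Real.log x) := by ring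
      _ ≤ _ := h2
  · have hdens : PL.dens G = D := tendsto_nhds_unique (POSB.tendsto_dens hstd (POSB.Inv.tinv hG)) hGD
    have h3 := (PL.stab_tendsto hstd.hd hstd.hdm hstd.hco hstd.hr hstd.gam hstd.mix (POSB.Inv.tinv hG)).eventually
      (lt_mem_nhds (by rw [hdens]; linarith : D / 2 < PL.dens G))
    exact h3.mono fun x hx => hx.le

theorem dens_all : ∃ c : ℝ, 0 < c ∧ ∀ r : ℤ → ℤ, Admissible 2 3 r → r 1 = 1 ∨ r 1 = -1 →
    ∀ D : ℝ, 0 < D → ∃ X : ℝ, ∀ G : Set ℤ, Inv 2 3 r G → HasDensity G D → ∀ x : ℝ, X ≤ x →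
      c * D * (x / Real.log x) ≤ prim (fun p => (p : ℤ) ∈ G) x := by
  obtain ⟨c₁, h₁, H₁⟩ := dens_one (ρ := 1) (Or.inl rfl)
  obtain ⟨c₂, h₂, H₂⟩ := dens_one (ρ := -1) (Or.inr rfl)
  refine ⟨min c₁ c₂, lt_min h₁ h₂, fun r hr h1 D hD => ?_⟩
  have hT : T 2 3 r = T 2 3 (fun _ => r 1) := CO.T_eq
  have key : ∀ c : ℝ, min c₁ c₂ ≤ c → (∃ X : ℝ, ∀ G : Set ℤ, Inv 2 3 (fun _ => r 1) G → HasDensity G D → ∀ x : ℝ, X ≤ x →
      c * D * (x / Real.log x) ≤ prim (fun p => (p : ℤ) ∈ G) x) → ∃ X : ℝ, ∀ G : Set ℤ, Inv 2 3 r G → HasDensity G D →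
      ∀ x : ℝ, X ≤ x → min c₁ c₂ * D * (x / Real.log x) ≤ prim (fun p => (p : ℤ) ∈ G) x := by
    rintro c hc ⟨X, hX⟩
    refine ⟨max X 1, fun G hG hGD x hx => ?_⟩
    have hx1 : 1 ≤ x := (le_max_right _ _).trans hx
    refine le_trans ?_ (hX G (fun n hn => by rw [← hT]; exact hG n hn) hGD x ((le_max_left _ _).trans hx))
    have hl : 0 ≤ Real.log x := Real.log_nonneg hx1
    exact mul_le_mul_of_nonneg_right (mul_le_mul_of_nonneg_right hc hD.le) (by positivity)
  rcases h1 with h1 | h1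
  · exact key c₁ (min_le_left _ _) (by rw [h1]; exact H₁ D hD)
  · exact key c₂ (min_le_right _ _) (by rw [h1]; exact H₂ D hD)

/-- Invariant sets with almost all primes. -/
theorem dens_iff {r : ℤ → ℤ} (hr : Admissible 2 3 r) (h1 : r 1 = 1 ∨ r 1 = -1) {G : Set ℤ} {D : ℝ} (hG : Inv 2 3 r G)
    (hGD : HasDensity G D) : AlmostAllPrimes (fun p => (p : ℤ) ∈ G) ↔ D = 1 := by
  have hstd := NL.std_of hr
  have hdens : PL.dens G = D := tendsto_nhds_unique (POSB.tendsto_dens hstd (POSB.Inv.tinv hG)) hGD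
  rw [aap_iff, one_primes hstd (s5g_all hstd (s2g hstd)) (inv_all hr h1) le_rfl (POSB.Inv.tinv hG), hdens]

/-- Corollary for `3x + 1`: the primes which do not reach `1`. -/
theorem three_all (hall : ¬ ∀ n : ℤ, 0 < n → ∃ t : ℕ, T3^[t] n = 1) : ∃ c X : ℝ, 0 < c ∧ ∀ x : ℝ, X ≤ x →
    c * (x / Real.log x) ≤ prim (fun p => ¬ ∃ t : ℕ, T3^[t] (p : ℤ) = 1) x := by
  obtain ⟨η, hη, hG, hfd⟩ := NL.three_compl hall
  obtain ⟨c, hc, h1⟩ := inv_all (r := fun _ => -1) POSB.std_three.hr (Or.inr rfl)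
  obtain ⟨X, hX⟩ := h1 0 η le_rfl hη
  exact ⟨c * η, X, by positivity, fun x hx => hX _ hG hfd x hx⟩

/-- **The orbits of the primes.** -/
theorem result :
    -- few integers, few primes, and its consequence for the orbits of almost all primes: all maps
    (∀ d m : ℕ, 2 ≤ d → d < m → Nat.Coprime m d → (m : ℝ) ≤ (d : ℝ) ^ ((d : ℝ) / ((d : ℝ) - 1)) →
      ∀ r : ℤ → ℤ, Admissible d m r →
      (∃ K A : ℕ, ∀ θ : ℝ, 0 < θ → ∃ c : ℝ, 0 < c ∧ ∀ η : ℝ, 0 < η → η ≤ 1 → ∃ Y : ℕ, ∀ y H : ℕ, Y ≤ y → (y : ℝ) ^ θ ≤ H → H ≤ y →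
        ∀ B : Set ℤ,
        ({n : ℤ | (y : ℤ) < n ∧ n ≤ y + H ∧ (T d m r)^[⌈K * Real.log (Real.log y)⌉₊] n ∈ B}.ncard : ℝ) ≤ c * η ^ A * H →
        ({p : ℕ | p.Prime ∧ y < p ∧ p ≤ y + H ∧ (T d m r)^[⌈K * Real.log (Real.log y)⌉₊] (p : ℤ) ∈ B}.ncard : ℝ) ≤
          η * (H / Real.log y)) ∧
      (∃ κ C : ℝ, 0 < κ ∧ 0 < C ∧ ∀ z : ℝ, 1 ≤ z → ∃ X : ℝ, ∀ x : ℝ, X ≤ x →
        ({p : ℕ | p.Prime ∧ (p : ℝ) ≤ x ∧ ∀ t : ℕ, z < ((T d m r)^[t] (p : ℤ) : ℝ)}.ncard : ℝ) ≤ C * z ^ (-κ) * (x / Real.log x)) ∧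
      (∀ f : ℕ → ℝ, Tendsto f atTop atTop → AlmostAllPrimes fun p => ∃ t : ℕ,
        (t : ℝ) ≤ Real.log p / drift d m + f p * Real.sqrt (Real.log p) ∧ ((T d m r)^[t] (p : ℤ) : ℝ) ≤ f p)) ∧
    -- the converse for invariant sets, and its consequences: `3x + 1` and `3x - 1`
    (∃ c : ℝ, 0 < c ∧ ∀ r : ℤ → ℤ, Admissible 2 3 r → r 1 = 1 ∨ r 1 = -1 →
      (∀ D : ℝ, 0 < D → ∃ X : ℝ, ∀ G : Set ℤ, Inv 2 3 r G → HasDensity G D → ∀ x : ℝ, X ≤ x →
        c * D * (x / Real.log x) ≤ prim (fun p => (p : ℤ) ∈ G) x) ∧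
      (∀ (G : Set ℤ) (D : ℝ), Inv 2 3 r G → HasDensity G D →
        (AlmostAllPrimes (fun p => (p : ℤ) ∈ G) ↔ D = 1) ∧ (AlmostAllPrimes (fun p => (p : ℤ) ∉ G) ↔ D = 0)) ∧
      ((E 2 3 r).Finite ↔ ∃ B : ℝ, AlmostAllPrimes fun p => ∃ t : ℕ, ((T 2 3 r)^[t] (p : ℤ) : ℝ) ≤ B)) := by
  obtain ⟨c, hc, hinv⟩ := dens_all
  refine ⟨fun d m hd hdm hco hw r hr => ?_, ⟨c, hc, fun r hr h1 => ⟨fun D hD => hinv r hr h1 D hD, ?_, ?_⟩⟩⟩
  · have h : POSB.Std d m r := ⟨hd, hdm, hco, hw, hr⟩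
    have h5 := s5p_all h
    refine ⟨?_, ?_, fun f hf => (aap_iff _).2 (tao_time h (s5g_all h (s2g h)) hf)⟩
    · obtain ⟨K, A, -, h6⟩ := h5
      exact ⟨K, A, h6⟩
    · obtain ⟨κ₀, hκ₀, hst⟩ := Pool.Agent.Helper30.PD.stay_tail_beyond hd hdm hco hw
      have heta : Pool.Agent.Helper68.Moeller.eta d m < 1 := eta_lt_one hd hdm hco hw
      obtain ⟨κ, hκ, C, hC, h7⟩ := Pool.Agent.Helper34.PT.tailP_of h (by linarith) (hst r h κ₀ le_rfl) h5
      exact ⟨κ, C, hκ, hC, h7⟩
  · intro G D hG hGD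
    refine ⟨dens_iff hr h1 hG hGD, ?_⟩
    have hstd := NL.std_of hr
    have hGc : Inv 2 3 r Gᶜ := fun n hn => by
      rw [Set.mem_compl_iff, Set.mem_compl_iff, hG n hn]
    have hdens : PL.dens G = D := tendsto_nhds_unique (POSB.tendsto_dens hstd (POSB.Inv.tinv hG)) hGD
    have hcD : HasDensity Gᶜ (1 - D) := by
      have h2 := POSB.tendsto_dens hstd (POSB.Inv.tinv hGc)
      rw [dens_compl hstd (POSB.Inv.tinv hG), hdens] at h2
      exact h2
    have h3 := dens_iff hr h1 hGc hcD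
    constructor
    · intro h4
      have := h3.1 h4
      linarith
    · intro h4
      exact h3.2 (by rw [h4]; ring)
  · have hT : T 2 3 r = T 2 3 (fun _ => r 1) := CO.T_eq
    have h2 := exc_primes (r := r) (NL.std_of hr) (by
      obtain ⟨c, hc, h⟩ := inv_all hr h1
      refine ⟨c, hc, fun z D hz hD => ?_⟩
      obtain ⟨X, hX⟩ := h z D hz hD
      exact ⟨X, fun G hG hGD x hx => hX G (fun n hn => by rw [hT]; exact hG n hn) hGD x hx⟩)
    simp only [aap_iff]
    exact h2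

end Pool.Agent.Results.MP_fd8838_nt.PrimeOrbits
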